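import Pool.Agent.R660.SH.Fin
import Pool.Agent.R660.SH.NUM
import Pool.Agent.R660.SH.CODE
import Pool.Agent.R660.SH.WT
import Pool.Agent.R660.SH.PROD
import Pool.Agent.R660.SH.STEP
import Pool.Agent.R660.SH.MEAS
import Pool.Agent.R660.SH.BALL
import Pool.Agent.R660.SH.DIMA
import Pool.Agent.R660.SH.DIML

open MeasureTheory Pool.Agent.R660.SH

/-- Every self-affine sponge supports a measure which is sharp for the Assouad dimension and for
the lower dimension at the same time. -/
theorem Pool.Agent.Results.MP_8460ec_an.SharpMeasure.result (d : ℕ) (hd : 1 ≤ d) (n : Fin d → ℕ)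
    (hn : StrictMono n) (hn1 : ∀ l, 1 < n l) (D : Set (Fin d → ℕ)) (hD : ∀ i ∈ D, ∀ l, i l < n l)
    (hD2 : 2 ≤ D.ncard) (K : Set (EuclideanSpace ℝ (Fin d))) (hK : IsSponge n D K) :
    ∃ μ : Measure (EuclideanSpace ℝ (Fin d)), IsProbabilityMeasure μ ∧ HasSupport μ K ∧
      SharpAssouad μ K ∧ SharpLower μ K := by
  have hne : D.Nonempty := by
    rw [Set.nonempty_iff_ne_empty]
    rintro rfl
    simp at hD2
  have hG : Good n D := ⟨hn, fun l => hn1 l, hD, hne⟩
  have hCODE : S_CODE := CODE.main NUM.main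
  exact Fin.main NUM.main hCODE WT.main PROD.main (MEAS.main STEP.main) BALL.main
    (DIMA.main NUM.main hCODE WT.main PROD.main)
    (DIML.main NUM.main hCODE WT.main PROD.main) hG hK
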